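import Pool.Agent.helper81.UH.Spec

/-! # Row uh:FIL (MP_a2a22c_al) -/

set_option autoImplicit false

namespace Pool.Agent.UH

open Matrix Pool.Agent.H48SL Pool.Agent.UG

theorem FIL_tv {n : ℕ} (g : SLZ (n + 1)) (hf : fx g) (hd : dn (qg g) = 1) :
    g = tv (Pi.single 0 1) (fun j => if j = 0 then 0 else (g : Matrix (Fin (n + 1)) (Fin (n + 1)) ℤ) 0 j) := by
  apply SL_ext
  rw [tv_coe]
  · ext i j
    rw [Matrix.add_apply, vecMulVec_apply]
    have hc := (fx_iff g).1 hf
    refine Fin.cases ?_ (fun i => ?_) i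
    · rw [Pi.single_eq_same, one_mul]
      by_cases hj : j = 0
      · subst hj
        rw [hc, if_pos rfl, if_pos rfl, Matrix.one_apply_eq, add_zero]
      · rw [if_neg hj, Matrix.one_apply_ne (Ne.symm hj), zero_add]
    · rw [Pi.single_eq_of_ne (Fin.succ_ne_zero i), zero_mul, add_zero]
      refine Fin.cases ?_ (fun j => ?_) j
      · rw [hc, if_neg (Fin.succ_ne_zero i), Matrix.one_apply_ne (Fin.succ_ne_zero i)]
      · have h1 := congrFun (congrFun hd i) j
        rw [dn_apply, qg_apply] at h1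
        by_cases hij : i = j
        · subst hij
          rw [Matrix.one_apply_eq] at h1 ⊢
          exact_mod_cast h1
        · rw [Matrix.one_apply_ne hij] at h1
          rw [Matrix.one_apply_ne (fun h => hij (Fin.succ_injective n h))]
          exact_mod_cast h1
  · rw [dotProduct_single, if_pos rfl, zero_mul]

theorem FIL_xe {n : ℕ} {i j : Fin n} (hij : i ≠ j) (K : ℕ) :
    xe i j (K : ℤ) = (xe i j 1) ^ K := by
  unfold xe
  rw [← tv_nsmul_right (single_dot hij 1)]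
  congr 1
  ext l
  by_cases hl : l = j
  · subst hl; simp
  · simp [hl]

theorem FIL_dot {n : ℕ} {i j : Fin n} (hij : i ≠ j) (a K : ℤ) :
    (Pi.single j.succ 1 : Fin (n + 1) → ℤ) ⬝ᵥ (Fin.cons a (Pi.single i K : Fin n → ℤ)) = 0 := by
  rw [single_dotProduct, one_mul, Fin.cons_succ, Pi.single_eq_of_ne hij.symm]

theorem FIL_shape {n : ℕ} (g : SLZ (n + 1)) (hf : fx g) (i j : Fin n) (hij : i ≠ j) (K : ℤ)
    (hd : dn (qg g) = qg (xe i j K)) (ψ : Fin (n + 1) → ℚ) (hψ0 : ψ 0 = 1) (hψ : ψ ᵥ* qg g = ψ) :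
    ∃ a : ℤ, (a : ℚ) = -(ψ i.succ * K) ∧
      g = tv (Fin.cons a (Pi.single i K : Fin n → ℤ)) (Pi.single j.succ 1) := by
  have hent : ∀ p q : Fin n, (g : Matrix (Fin (n + 1)) (Fin (n + 1)) ℤ) p.succ q.succ =
      (1 : Matrix (Fin n) (Fin n) ℤ) p q +
        (Pi.single i 1 : Fin n → ℤ) p * (Pi.single j K : Fin n → ℤ) q := by
    intro p q
    have h1 := congrFun (congrFun hd p) q
    rw [dn_apply, qg_apply, qg_apply] at h1
    have h2 : (g : Matrix (Fin (n + 1)) (Fin (n + 1)) ℤ) p.succ q.succ =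
        ((xe i j K : SLZ n) : Matrix (Fin n) (Fin n) ℤ) p q := by exact_mod_cast h1
    rw [h2]
    unfold xe
    rw [tv_coe (single_dot hij K), Matrix.add_apply, vecMulVec_apply]
  have hrow : ∀ q : Fin n, ((g : Matrix (Fin (n + 1)) (Fin (n + 1)) ℤ) 0 q.succ : ℚ) =
      -(ψ i.succ * ((Pi.single j K : Fin n → ℤ) q : ℤ)) := by
    intro q
    have h1 := congrFun hψ q.succ
    rw [vecMul, dotProduct, Fin.sum_univ_succ, hψ0, one_mul, qg_apply] at h1
    have h2 : ∀ p : Fin n, ψ p.succ * qg g p.succ q.succ =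
        (if p = q then ψ p.succ else 0) +
          (if p = i then ψ p.succ * ((Pi.single j K : Fin n → ℤ) q : ℤ) else 0) := by
      intro p
      rw [qg_apply, hent, Matrix.one_apply, Pi.single_apply]
      push_cast
      split_ifs <;> ring
    rw [Finset.sum_congr rfl fun p _ => h2 p, Finset.sum_add_distrib, Finset.sum_ite_eq' Finset.univ q,
      Finset.sum_ite_eq' Finset.univ i, if_pos (Finset.mem_univ _), if_pos (Finset.mem_univ _)] at h1
    linarith
  refine ⟨(g : Matrix (Fin (n + 1)) (Fin (n + 1)) ℤ) 0 j.succ, ?_, ?_⟩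
  · rw [hrow j, Pi.single_eq_same]
  · apply SL_ext
    rw [tv_coe (FIL_dot hij _ K)]
    have hc := (fx_iff g).1 hf
    ext l m
    rw [Matrix.add_apply, vecMulVec_apply]
    refine Fin.cases ?_ (fun p => ?_) l
    · rw [Fin.cons_zero]
      refine Fin.cases ?_ (fun q => ?_) m
      · rw [hc, if_pos rfl, Matrix.one_apply_eq, Pi.single_eq_of_ne (Ne.symm (Fin.succ_ne_zero j)),
          mul_zero, add_zero]
      · rw [Matrix.one_apply_ne (Ne.symm (Fin.succ_ne_zero q)), zero_add]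
        by_cases hq : q = j
        · subst hq
          rw [Pi.single_eq_same, mul_one]
        · rw [Pi.single_eq_of_ne (fun h => hq (Fin.succ_injective n h)), mul_zero]
          have h1 := hrow q
          rw [Pi.single_eq_of_ne hq, Int.cast_zero, mul_zero, neg_zero] at h1
          exact_mod_cast h1
    · rw [Fin.cons_succ]
      refine Fin.cases ?_ (fun q => ?_) m
      · rw [hc, if_neg (Fin.succ_ne_zero p), Matrix.one_apply_ne (Fin.succ_ne_zero p),
          Pi.single_eq_of_ne (Ne.symm (Fin.succ_ne_zero j)), mul_zero, add_zero]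
      · rw [hent p q]
        have h1 : (1 : Matrix (Fin (n + 1)) (Fin (n + 1)) ℤ) p.succ q.succ =
            (1 : Matrix (Fin n) (Fin n) ℤ) p q := by
          rw [Matrix.one_apply, Matrix.one_apply]
          simp only [Fin.succ_inj]
        have h2 : (Pi.single j.succ 1 : Fin (n + 1) → ℤ) q.succ = (Pi.single j 1 : Fin n → ℤ) q := by
          rw [Pi.single_apply, Pi.single_apply]
          simp only [Fin.succ_inj]
        rw [h1, h2]
        congr 1
        rw [Pi.single_apply, Pi.single_apply, Pi.single_apply, Pi.single_apply]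
        split_ifs <;> ring

theorem FIL : FIL_stmt := by
  intro n hn H hD hfi
  by_cases hno : ∃ τ : Fin (n + 1) → ℤ, τ ≠ 0 ∧ τ 0 = 0 ∧ tv (Pi.single 0 1) τ ∈ H
  · obtain ⟨τ, h1, h2, h3⟩ := hno
    exact TRV n (by omega) H hD hfi τ h1 h2 h3
  have hno' : ∀ τ : Fin (n + 1) → ℤ, τ ≠ 0 → τ 0 = 0 → tv (Pi.single 0 1) τ ∉ H := by
    intro τ h1 h2 h3
    exact hno ⟨τ, h1, h2, h3⟩
  have hker : ∀ g ∈ H ⊓ St n, dn (qg g) = 1 → g = 1 := by
    intro g hg hd
    have h1 := FIL_tv g hg.2 hd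
    by_cases h0 : (fun j => if j = 0 then 0 else (g : Matrix (Fin (n + 1)) (Fin (n + 1)) ℤ) 0 j) = 0
    · rw [h1, h0, tv_zero_right]
    · exfalso
      apply hno' _ h0 (by simp)
      rw [← h1]
      exact hg.1
  obtain ⟨K, hK, hKm⟩ : ∃ K : ℕ, 1 ≤ K ∧ ∀ i j : Fin n, i ≠ j → xe i j (K : ℤ) ∈ Hb H := by
    refine ⟨(Hb H).index.factorial, Nat.factorial_pos _, fun i j hij => ?_⟩
    obtain ⟨a, ha, hle, hmem⟩ := Subgroup.exists_pow_mem_of_index_ne_zero hfi.index_ne_zero (xe i j 1)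
    rw [FIL_xe hij]
    obtain ⟨b, hb⟩ := Nat.dvd_factorial ha hle
    rw [hb, pow_mul]
    exact Subgroup.pow_mem _ hmem b
  have hlift : ∀ i j : Fin n, ∃ g : SLZ (n + 1), i ≠ j →
      g ∈ H ⊓ St n ∧ dn (qg g) = qg (xe i j (K : ℤ)) := by
    intro i j
    by_cases hij : i ≠ j
    · obtain ⟨h, hh, hf, hd⟩ := mem_Hb.1 (hKm i j hij)
      exact ⟨h, fun _ => ⟨⟨hh, hf⟩, hd⟩⟩
    · exact ⟨1, fun h => absurd h hij⟩
  choose g hg using hlift
  obtain ⟨ψ, hψ0, hψ⟩ := H1 n hn (H ⊓ St n) (fun x hx => hx.2) hker K hK g hg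
  obtain ⟨i, j, l, hij, hil, hjl⟩ : ∃ i j l : Fin n, i ≠ j ∧ i ≠ l ∧ j ≠ l :=
    ⟨⟨0, by omega⟩, ⟨1, by omega⟩, ⟨2, by omega⟩, by simp, by simp, by simp⟩
  obtain ⟨a, ha, hga⟩ := FIL_shape (g i j) (hg i j hij).1.2 i j hij K (hg i j hij).2 ψ hψ0 (hψ i j hij)
  obtain ⟨b, hb, hgb⟩ := FIL_shape (g i l) (hg i l hil).1.2 i l hil K (hg i l hil).2 ψ hψ0 (hψ i l hil)
  have hab : a = b := by
    have h1 : (a : ℚ) = b := ha.trans hb.symm
    exact_mod_cast h1
  subst hab
  have hwj := FIL_dot hij a (K : ℤ)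
  have hwl := FIL_dot hil a (K : ℤ)
  set w : Fin (n + 1) → ℤ := Fin.cons a (Pi.single i (K : ℤ) : Fin n → ℤ) with hw
  have hwi : w i.succ = K := by
    rw [hw, Fin.cons_succ, Pi.single_eq_same]
  have hK0 : (K : ℤ) ≠ 0 := by
    have : K ≠ 0 := by omega
    exact_mod_cast this
  refine (final_coef (by simp; omega) H w (Pi.single j.succ 1) (g i j) (g i l)
    (hg i j hij).1.1 (hg i l hil).1.1 ?_ ?_ ?_ (Or.inr ?_)).1 hD
  · intro h1
    have h2 := congrArg (fun x : SLZ (n + 1) => (x : Matrix (Fin (n + 1)) (Fin (n + 1)) ℤ) i.succ j.succ)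
      (hga.symm.trans h1)
    rw [tv_coe hwj, Matrix.add_apply, vecMulVec_apply, hwi, Pi.single_eq_same, mul_one,
      Matrix.SpecialLinearGroup.coe_one] at h2
    apply hK0
    linarith
  · rw [hga, tv_coe hwj]
  · rw [hgb, tv_mulVec hwl, hwl, zero_smul, add_zero, hwj, abs_zero]
    norm_num
  · intro k hk m h1
    rw [hga, hgb, ← tv_zsmul_right hwj, ← tv_nsmul_right hwl] at h1
    have h2 := congrArg (fun x : SLZ (n + 1) => (x : Matrix (Fin (n + 1)) (Fin (n + 1)) ℤ) i.succ l.succ) h1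
    rw [tv_coe (by rw [smul_dotProduct, hwl, smul_zero]), tv_coe (by rw [smul_dotProduct, hwj, smul_zero]),
      Matrix.add_apply, Matrix.add_apply, vecMulVec_apply, vecMulVec_apply, hwi, Pi.smul_apply,
      Pi.smul_apply, Pi.single_eq_same,
      Pi.single_eq_of_ne (fun h : l.succ = j.succ => hjl (Fin.succ_injective n h).symm)] at h2
    simp only [smul_eq_mul, mul_one, mul_zero, add_zero] at h2
    have h3 : (K : ℤ) * (k : ℤ) = 0 := by linarith
    rcases mul_eq_zero.1 h3 with h4 | h4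
    · exact hK0 h4
    · have : k = 0 := by exact_mod_cast h4
      omega

end Pool.Agent.UH
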