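import Pool.Agent.helper81.UH.Spec

/-! # Row uh:RAT (MP_a2a22c_al): rational dependence -/

set_option autoImplicit false

namespace Pool.Agent.UH

open Matrix Pool.Agent.H48SL Pool.Agent.UG

/-- good functions -/
def RAT_G {m : ℕ} (δ φ : SLZ m → ℚ) : Prop := ∃ K : ℕ, IsPolyQ (fun h : SLZ m => δ h ^ K * φ h)

theorem RAT_pow {m : ℕ} {δ : SLZ m → ℚ} (hδ : IsPolyQ δ) (K : ℕ) : IsPolyQ (fun h => δ h ^ K) := by
  induction K with
  | zero => simp only [pow_zero]; exact IsPolyQ.const 1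
  | succ K ih => simp only [pow_succ]; exact ih.mul hδ

theorem RAT_poly {m : ℕ} (δ : SLZ m → ℚ) {φ : SLZ m → ℚ} (h : IsPolyQ φ) : RAT_G δ φ :=
  ⟨0, by simpa using h⟩

theorem RAT_const {m : ℕ} (δ : SLZ m → ℚ) (c : ℚ) : RAT_G δ (fun _ => c) := RAT_poly δ (IsPolyQ.const c)

theorem RAT_add {m : ℕ} {δ φ ψ : SLZ m → ℚ} (hδ : IsPolyQ δ) (h1 : RAT_G δ φ) (h2 : RAT_G δ ψ) :
    RAT_G δ (fun h => φ h + ψ h) := by
  obtain ⟨K, hK⟩ := h1
  obtain ⟨L, hL⟩ := h2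
  refine ⟨K + L, ?_⟩
  have h3 := (((RAT_pow hδ L).mul hK).add ((RAT_pow hδ K).mul hL))
  have h4 : (fun h => δ h ^ (K + L) * (φ h + ψ h)) =
      fun h => δ h ^ L * (δ h ^ K * φ h) + δ h ^ K * (δ h ^ L * ψ h) := by
    funext h; ring
  rw [h4]
  exact h3

theorem RAT_mul {m : ℕ} {δ φ ψ : SLZ m → ℚ} (h1 : RAT_G δ φ) (h2 : RAT_G δ ψ) :
    RAT_G δ (fun h => φ h * ψ h) := by
  obtain ⟨K, hK⟩ := h1
  obtain ⟨L, hL⟩ := h2
  refine ⟨K + L, ?_⟩
  have h3 := hK.mul hL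
  have h4 : (fun h => δ h ^ (K + L) * (φ h * ψ h)) =
      fun h => (δ h ^ K * φ h) * (δ h ^ L * ψ h) := by
    funext h; ring
  rw [h4]
  exact h3

theorem RAT_sum {m : ℕ} {δ : SLZ m → ℚ} (hδ : IsPolyQ δ) {κ : Type} (s : Finset κ) (F : κ → SLZ m → ℚ)
    (hF : ∀ k ∈ s, RAT_G δ (F k)) : RAT_G δ (fun g => ∑ k ∈ s, F k g) := by
  classical
  induction s using Finset.induction_on with
  | empty => simp only [Finset.sum_empty]; exact RAT_const δ 0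
  | insert a s ha ih =>
    simp only [Finset.sum_insert ha]
    exact RAT_add hδ (hF a (Finset.mem_insert_self a s))
      (ih fun k hk => hF k (Finset.mem_insert_of_mem hk))

theorem RAT_prod {m : ℕ} {δ : SLZ m → ℚ} {κ : Type} (s : Finset κ) (F : κ → SLZ m → ℚ)
    (hF : ∀ k ∈ s, RAT_G δ (F k)) : RAT_G δ (fun g => ∏ k ∈ s, F k g) := by
  classical
  induction s using Finset.induction_on with
  | empty => simp only [Finset.prod_empty]; exact RAT_const δ 1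
  | insert a s ha ih =>
    simp only [Finset.prod_insert ha]
    exact RAT_mul (hF a (Finset.mem_insert_self a s))
      (ih fun k hk => hF k (Finset.mem_insert_of_mem hk))

theorem RAT_inv {m : ℕ} {δ : SLZ m → ℚ} (hδ : IsPolyQ δ) : RAT_G δ (fun h => (δ h)⁻¹) := by
  refine ⟨2, ?_⟩
  have h4 : (fun h => δ h ^ 2 * (δ h)⁻¹) = δ := by
    funext h
    by_cases h0 : δ h = 0
    · rw [h0]; simp
    · field_simp
  rw [h4]
  exact hδ

/-- good vectors -/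
def RAT_V {m k : ℕ} (δ : SLZ m → ℚ) (v : SLZ m → Fin k → ℚ) : Prop := ∀ i, RAT_G δ (fun x => v x i)

/-- good matrices -/
def RAT_M {m k : ℕ} (δ : SLZ m → ℚ) (M : SLZ m → MQ k) : Prop := ∀ i j, RAT_G δ (fun x => M x i j)

section

variable {m k : ℕ} {δ : SLZ m → ℚ}

theorem RAT_Mconst (δ : SLZ m → ℚ) (C : MQ k) : RAT_M δ (fun _ => C) := fun _ _ => RAT_const δ _

theorem RAT_Vconst (δ : SLZ m → ℚ) (c : Fin k → ℚ) : RAT_V δ (fun _ => c) := fun _ => RAT_const δ _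

theorem RAT_Mmul (hδ : IsPolyQ δ) {M N : SLZ m → MQ k} (hM : RAT_M δ M) (hN : RAT_M δ N) :
    RAT_M δ (fun x => M x * N x) := by
  intro i j
  simp only [Matrix.mul_apply]
  exact RAT_sum hδ _ _ fun l _ => RAT_mul (hM i l) (hN l j)

theorem RAT_Mmulvec (hδ : IsPolyQ δ) {M : SLZ m → MQ k} {v : SLZ m → Fin k → ℚ} (hM : RAT_M δ M)
    (hv : RAT_V δ v) : RAT_V δ (fun x => M x *ᵥ v x) := by
  intro i
  simp only [Matrix.mulVec, dotProduct]
  exact RAT_sum hδ _ _ fun l _ => RAT_mul (hM i l) (hv l)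

theorem RAT_Mvecmul (hδ : IsPolyQ δ) {M : SLZ m → MQ k} {v : SLZ m → Fin k → ℚ} (hM : RAT_M δ M)
    (hv : RAT_V δ v) : RAT_V δ (fun x => v x ᵥ* M x) := by
  intro i
  simp only [Matrix.vecMul, dotProduct]
  exact RAT_sum hδ _ _ fun l _ => RAT_mul (hv l) (hM l i)

theorem RAT_Vdot (hδ : IsPolyQ δ) {v w : SLZ m → Fin k → ℚ} (hv : RAT_V δ v)
    (hw : RAT_V δ w) : RAT_G δ (fun x => v x ⬝ᵥ w x) := by
  simp only [dotProduct]
  exact RAT_sum hδ _ _ fun l _ => RAT_mul (hv l) (hw l)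

theorem RAT_Vadd (hδ : IsPolyQ δ) {v w : SLZ m → Fin k → ℚ} (hv : RAT_V δ v)
    (hw : RAT_V δ w) : RAT_V δ (fun x => v x + w x) := by
  intro i
  simp only [Pi.add_apply]
  exact RAT_add hδ (hv i) (hw i)

theorem RAT_Vsmul {φ : SLZ m → ℚ} {w : SLZ m → Fin k → ℚ} (hφ : RAT_G δ φ)
    (hw : RAT_V δ w) : RAT_V δ (fun x => φ x • w x) := by
  intro i
  simp only [Pi.smul_apply, smul_eq_mul]
  exact RAT_mul hφ (hw i)

theorem RAT_sub (hδ : IsPolyQ δ) {φ ψ : SLZ m → ℚ} (h1 : RAT_G δ φ) (h2 : RAT_G δ ψ) :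
    RAT_G δ (fun h => φ h - ψ h) := by
  have h3 := RAT_add hδ h1 (RAT_mul (RAT_const δ (-1)) h2)
  have h4 : (fun h => φ h - ψ h) = fun h => φ h + (-1) * ψ h := by
    funext h; ring
  rw [h4]
  exact h3

theorem RAT_Vsub (hδ : IsPolyQ δ) {v w : SLZ m → Fin k → ℚ} (hv : RAT_V δ v)
    (hw : RAT_V δ w) : RAT_V δ (fun x => v x - w x) := by
  intro i
  simp only [Pi.sub_apply]
  exact RAT_sub hδ (hv i) (hw i)

theorem RAT_Mneg {M : SLZ m → MQ k} (hM : RAT_M δ M) : RAT_M δ (fun x => -M x) := by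
  intro i j
  have h3 := RAT_mul (RAT_const δ (-1)) (hM i j)
  have h4 : (fun x => (-M x) i j) = fun x => (-1) * M x i j := by
    funext x
    rw [Matrix.neg_apply]
    ring
  rw [h4]
  exact h3

theorem RAT_Msmul {φ : SLZ m → ℚ} {M : SLZ m → MQ k} (hφ : RAT_G δ φ)
    (hM : RAT_M δ M) : RAT_M δ (fun x => φ x • M x) := by
  intro i j
  simp only [Matrix.smul_apply, smul_eq_mul]
  exact RAT_mul hφ (hM i j)

theorem RAT_Msum (hδ : IsPolyQ δ) {κ : Type} (s : Finset κ) (F : κ → SLZ m → MQ k)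
    (hF : ∀ l ∈ s, RAT_M δ (F l)) : RAT_M δ (fun x => ∑ l ∈ s, F l x) := by
  intro i j
  simp only [Matrix.sum_apply]
  exact RAT_sum hδ _ _ fun l hl => hF l hl i j

theorem RAT_Mpow (hδ : IsPolyQ δ) {M : SLZ m → MQ k} (hM : RAT_M δ M) (r : ℕ) :
    RAT_M δ (fun x => M x ^ r) := by
  induction r with
  | zero => simp only [pow_zero]; exact RAT_Mconst δ 1
  | succ r ih => simp only [pow_succ]; exact RAT_Mmul hδ ih hM

theorem RAT_EX (hδ : IsPolyQ δ) {M : SLZ m → MQ k} (hM : RAT_M δ M) (N : ℕ) :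
    RAT_M δ (fun x => EX N (M x)) := by
  unfold EX
  exact RAT_Msum hδ _ _ fun l _ => RAT_Msmul (RAT_const δ _) (RAT_Mpow hδ hM l)

theorem RAT_det (hδ : IsPolyQ δ) {M : SLZ m → MQ k} (hM : RAT_M δ M) : RAT_G δ (fun x => (M x).det) := by
  simp only [Matrix.det_apply']
  exact RAT_sum hδ _ _ fun σ _ => RAT_mul (RAT_const δ _) (RAT_prod _ _ fun i _ => hM _ _)

theorem RAT_adj (hδ : IsPolyQ δ) {M : SLZ m → MQ k} (hM : RAT_M δ M) :
    RAT_M δ (fun x => (M x).adjugate) := by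
  intro i j
  simp only [Matrix.adjugate_apply]
  apply RAT_det hδ
  intro p q
  by_cases hp : p = j
  · subst hp
    simp only [Matrix.updateRow_self]
    exact RAT_const δ _
  · simp only [Matrix.updateRow_ne hp]
    exact hM p q

theorem RAT_NM (hδ : IsPolyQ δ) (X : Fin k → MQ (k + 1)) {y : SLZ m → Fin (k + 1) → ℚ} (hy : RAT_V δ y) :
    RAT_M δ (fun x => NM X (y x)) := by
  intro i j
  unfold NM
  simp only [Matrix.of_apply]
  refine Fin.cases ?_ (fun j' => ?_) j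
  · exact hy i
  · exact RAT_Mmulvec hδ (RAT_Mconst δ (X j')) hy i

theorem RAT_dl (hδ : IsPolyQ δ) (X : Fin k → MQ (k + 1)) {y : SLZ m → Fin (k + 1) → ℚ} (hy : RAT_V δ y) :
    RAT_G δ (fun x => dl X (y x)) := RAT_det hδ (RAT_NM hδ X hy)

theorem RAT_AA (hδ : IsPolyQ δ) (X : Fin k → MQ (k + 1)) {y v : SLZ m → Fin (k + 1) → ℚ} (hy : RAT_V δ y)
    (hv : RAT_V δ v) (hd : RAT_G δ (fun x => (dl X (y x))⁻¹)) :
    RAT_M δ (fun x => AA X (y x) (v x)) := by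
  unfold AA
  refine RAT_Msum hδ _ _ fun j _ => ?_
  have h1 : RAT_G δ (fun x => (((NM X (y x)).adjugate *ᵥ v x) j.succ) * (dl X (y x))⁻¹) :=
    RAT_mul (RAT_Mmulvec hδ (RAT_adj hδ (RAT_NM hδ X hy)) hv j.succ) hd
  simp only [div_eq_mul_inv]
  exact RAT_Msmul h1 (RAT_Mconst δ (X j))

theorem RAT_UPS (hδ : IsPolyQ δ) (N : ℕ) (X : Fin k → MQ (k + 1)) {y w : SLZ m → Fin (k + 1) → ℚ}
    (hy : RAT_V δ y) (hw : RAT_V δ w) (hd : RAT_G δ (fun x => (dl X (y x))⁻¹)) (i : ℕ) :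
    RAT_M δ (fun x => (UPS N X (y x) (w x) i).1) ∧ RAT_M δ (fun x => (UPS N X (y x) (w x) i).2) := by
  induction i with
  | zero => exact ⟨RAT_Mconst δ 1, RAT_Mconst δ 1⟩
  | succ i ih =>
    obtain ⟨ih1, ih2⟩ := ih
    have h1 : RAT_M δ (fun x => AA X (y x) (y x + w x - (UPS N X (y x) (w x) i).1 *ᵥ y x)) :=
      RAT_AA hδ X hy (RAT_Vsub hδ (RAT_Vadd hδ hy hw) (RAT_Mmulvec hδ ih1 hy)) hd
    exact ⟨RAT_Mmul hδ ih1 (RAT_EX hδ h1 N), RAT_Mmul hδ (RAT_EX hδ (RAT_Mneg h1) N) ih2⟩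

theorem RAT_ev {P : MvPolynomial (Fin k × Fin k) ℚ} (hδ : IsPolyQ δ) {M : SLZ m → MQ k} (hM : RAT_M δ M) :
    RAT_G δ (fun x => ev P (M x)) := by
  unfold ev
  induction P using MvPolynomial.induction_on with
  | C c => simp only [MvPolynomial.eval_C]; exact RAT_const δ c
  | add p q hp hq => simp only [map_add]; exact RAT_add hδ hp hq
  | mul_X p i hp => simp only [map_mul, MvPolynomial.eval_X]; exact RAT_mul hp (hM i.1 i.2)

/-- the general statement -/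
theorem RAT_main (hδ : IsPolyQ δ) (N : ℕ) (X : Fin k → MQ (k + 1)) (f : Fin (k + 1) → ℚ)
    (P : MvPolynomial (Fin k × Fin k) ℚ) (a b c : Fin (k + 1) → ℚ) (t : ℚ) (H G : SLZ m → SLZ (k + 1))
    (hH : RAT_M δ (fun x => qg (H x))) (hH' : RAT_M δ (fun x => qg (H x)⁻¹))
    (hG : RAT_M δ (fun x => qg (G x))) (hG' : RAT_M δ (fun x => qg (G x)⁻¹))
    (hdH : RAT_G δ (fun x => (dl X (yv (H x)))⁻¹)) (hdG : RAT_G δ (fun x => (dl X (yv (G x)))⁻¹)) :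
    RAT_G δ (fun x => ev P (dn (SS N X f (H x) (G x) a b c t))) := by
  have hyH : RAT_V δ (fun x => yv (H x)) := RAT_Mmulvec hδ hH' (RAT_Vconst δ _)
  have hyG : RAT_V δ (fun x => yv (G x)) := RAT_Mmulvec hδ hG' (RAT_Vconst δ _)
  have hfH : RAT_V δ (fun x => fh f (H x)) := RAT_Mvecmul hδ hH' (RAT_Vconst δ _)
  have hfG : RAT_V δ (fun x => fh f (G x)) := RAT_Mvecmul hδ hG' (RAT_Vconst δ _)
  have hdot : ∀ u v : Fin (k + 1) → ℚ,
      RAT_G δ (fun x => fh f (H x) ⬝ᵥ u * (fh f (G x) ⬝ᵥ v) - fh f (H x) ⬝ᵥ v * (fh f (G x) ⬝ᵥ u)) := by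
    intro u v
    exact RAT_sub hδ (RAT_mul (RAT_Vdot hδ hfH (RAT_Vconst δ u)) (RAT_Vdot hδ hfG (RAT_Vconst δ v)))
      (RAT_mul (RAT_Vdot hδ hfH (RAT_Vconst δ v)) (RAT_Vdot hδ hfG (RAT_Vconst δ u)))
  have hzz : RAT_V δ (fun x => zz f (H x) (G x) a b c) := by
    unfold zz
    exact RAT_Vadd hδ (RAT_Vadd hδ (RAT_Vsmul (hdot b c) (RAT_Vconst δ a))
      (RAT_Vsmul (hdot c a) (RAT_Vconst δ b))) (RAT_Vsmul (hdot a b) (RAT_Vconst δ c))
  have hwH : RAT_V δ (fun x => t • (qg (H x)⁻¹ *ᵥ zz f (H x) (G x) a b c)) :=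
    RAT_Vsmul (RAT_const δ t) (RAT_Mmulvec hδ hH' hzz)
  have hwG : RAT_V δ (fun x => t • (qg (G x)⁻¹ *ᵥ zz f (H x) (G x) a b c)) :=
    RAT_Vsmul (RAT_const δ t) (RAT_Mmulvec hδ hG' hzz)
  have h1 := (RAT_UPS hδ N X hyH hwH hdH N).2
  have h2 := (RAT_UPS hδ N X hyG hwG hdG N).1
  have hS : RAT_M δ (fun x => SS N X f (H x) (G x) a b c t) :=
    RAT_Mmul hδ (RAT_Mmul hδ (RAT_Mmul hδ hH h1) hH') (RAT_Mmul hδ (RAT_Mmul hδ hG h2) hG')
  exact RAT_ev hδ fun i j => hS i.succ j.succ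

end

theorem RAT : RAT_stmt := by
  intro n N X f P a b c t
  have hd : IsPolyQ (fun h : SLZ (n + 1) => dl X (yv h)) := by
    obtain ⟨K, hK⟩ := RAT_dl (δ := fun _ : SLZ (n + 1) => (1 : ℚ)) (IsPolyQ.const 1) X
      (y := fun h => yv h) (RAT_Mmulvec (IsPolyQ.const 1) (fun i j => RAT_poly _ (IsPolyQ.entry_inv i j))
        (RAT_Vconst _ _))
    simp only [one_pow, one_mul] at hK
    exact hK
  have he : RAT_M (fun h : SLZ (n + 1) => dl X (yv h)) (fun x => qg x) :=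
    fun i j => RAT_poly _ (IsPolyQ.entry i j)
  have he' : RAT_M (fun h : SLZ (n + 1) => dl X (yv h)) (fun x => qg x⁻¹) :=
    fun i j => RAT_poly _ (IsPolyQ.entry_inv i j)
  refine ⟨fun g _ => ?_, fun h _ => ?_, hd⟩
  · exact RAT_main hd N X f P a b c t (fun x => x) (fun _ => g) he he' (RAT_Mconst _ _) (RAT_Mconst _ _)
      (RAT_inv hd) (RAT_const _ _)
  · exact RAT_main hd N X f P a b c t (fun _ => h) (fun x => x) (RAT_Mconst _ _) (RAT_Mconst _ _) he he'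
      (RAT_const _ _) (RAT_inv hd)

end Pool.Agent.UH
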